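import Mathlib
import Pool.Agent.R234.UC.M10

/-!
# Strong unique continuation for the `∂̄` inequality with potential in `L^{2n}`

The theorem `result` answers Q1 of `MP_b3ccf3_an` in the affirmative.
-/

set_option autoImplicit false

open MeasureTheory Metric Set Filter Topology
open scoped ContDiff ENNReal

namespace Pool.Agent.Results.MP_b3ccf3_an.StrongUC

open Pool.Agent.R234.UC (Cn al)

variable {n m : ℕ}

/-- `f ∈ L^s_loc(Ω)`, for a real exponent `s`. -/
def LocLp {F : Type*} [NormedAddCommGroup F] (Ω : Set (Cn n)) (s : ℝ) (f : Cn n → F) : Prop :=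
  ∀ K : Set (Cn n), K ⊆ Ω → IsCompact K → MemLp f (ENNReal.ofReal s) (volume.restrict K)

/-- `Du` is the distributional (real, total) derivative of `u` on `Ω`: integration by parts
against all real valued smooth functions with compact support in `Ω`. -/
def IsWeakGrad (Ω : Set (Cn n)) (u : Cn n → Cn m) (Du : Cn n → Cn n →L[ℝ] Cn m) : Prop :=
  ∀ φ : Cn n → ℝ, ContDiff ℝ ∞ φ → HasCompactSupport φ → tsupport φ ⊆ Ω → ∀ v : Cn n,
    ∫ x, (fderiv ℝ φ x v) • u x = - ∫ x, φ x • Du x v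

/-- the vector `∂u/∂z̄_j = (∂u/∂x_j + i ∂u/∂y_j)/2` (all components of `u` together), computed from
the real derivative `A` of `u`. -/
noncomputable def dbar (A : Cn n →L[ℝ] Cn m) (j : Fin n) : Cn m :=
  (1 / 2 : ℂ) • (A (EuclideanSpace.single j 1) + Complex.I • A (EuclideanSpace.single j Complex.I))

/-- the Euclidean norm of all the numbers `∂u_k/∂z̄_j`. -/
noncomputable def dbarNorm (A : Cn n →L[ℝ] Cn m) : ℝ := Real.sqrt (∑ j, ‖dbar A j‖ ^ 2)

/-- `u` vanishes to infinite order in the `L^t` sense at `z₀`. -/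
def VanishesInfOrder (u : Cn n → Cn m) (t : ℝ) (z₀ : Cn n) : Prop :=
  ∀ N : ℕ, Tendsto (fun r : ℝ => ENNReal.ofReal ((r ^ N)⁻¹) * ∫⁻ x in ball z₀ r, ‖u x‖ₑ ^ t)
    (𝓝[>] 0) (𝓝 0)

/-- Strong unique continuation on `Ω`, for maps in `W^{1,s}_loc(Ω; ℂ^m)` vanishing to infinite order
at one point in the `L^t` sense, and potentials in `L^{2n}_loc(Ω)`. -/
def StrongUniqueContinuation (n m : ℕ) (s t : ℝ) (Ω : Set (Cn n)) : Prop :=
  ∀ (u : Cn n → Cn m) (Du : Cn n → Cn n →L[ℝ] Cn m) (V : Cn n → ℝ),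
    LocLp Ω s u → LocLp Ω s Du → IsWeakGrad Ω u Du → LocLp Ω (2 * n) V →
    (∀ᵐ x, x ∈ Ω → dbarNorm (Du x) ≤ V x * ‖u x‖) →
    (∃ z₀ ∈ Ω, VanishesInfOrder u t z₀) →
    ∀ᵐ x, x ∈ Ω → u x = 0

theorem al_add (A : Cn n →L[ℝ] Cn m) (z w : Cn n) : al A (z + w) = al A z + al A w := by
  unfold al
  rw [smul_add Complex.I z w, map_add, map_add]
  simp only [smul_add]
  abel

theorem al_smul (A : Cn n →L[ℝ] Cn m) (c : ℂ) (z : Cn n) :
    al A (c • z) = (starRingEnd ℂ c) • al A z := by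
  unfold al
  have h1 : c • z = c.re • z + c.im • (Complex.I • z) := by
    rw [← Complex.coe_smul, ← Complex.coe_smul, smul_smul, ← add_smul]
    congr 1
    exact (Complex.re_add_im c).symm
  have h2 : Complex.I • (c • z) = c.re • (Complex.I • z) - c.im • z := by
    rw [← Complex.coe_smul, ← Complex.coe_smul, smul_smul, smul_smul, ← sub_smul]
    congr 1
    conv_lhs => rw [← Complex.re_add_im c]
    linear_combination (c.im : ℂ) * Complex.I_mul_I
  have e1 : A (c • z) = (c.re : ℂ) • A z + (c.im : ℂ) • A (Complex.I • z) := by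
    rw [h1, A.map_add, A.map_smul, A.map_smul, Complex.coe_smul, Complex.coe_smul]
  have e2 : A (Complex.I • (c • z)) = (c.re : ℂ) • A (Complex.I • z) - (c.im : ℂ) • A z := by
    rw [h2, A.map_sub, A.map_smul, A.map_smul, Complex.coe_smul, Complex.coe_smul]
  have h3 : starRingEnd ℂ c = c.re - c.im * Complex.I := by
    apply Complex.ext <;> simp
  rw [e1, e2, h3]
  have hI : Complex.I * Complex.I = -1 := Complex.I_mul_I
  linear_combination (norm := module) ((c.im : ℂ) / 2 * hI) • A (Complex.I • z)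

theorem al_sum (A : Cn n →L[ℝ] Cn m) (z : Cn n) :
    al A z = ∑ j, (starRingEnd ℂ (z j)) • dbar A j := by
  have hz : z = ∑ j, z j • (EuclideanSpace.single j (1 : ℂ)) := by
    ext i
    simp [Finset.sum_apply, Pi.single_apply]
  have hsum : ∀ (S : Finset (Fin n)) (f : Fin n → Cn n), al A (∑ j ∈ S, f j) = ∑ j ∈ S, al A (f j) := by
    intro S f
    induction S using Finset.induction_on with
    | empty => simp [al]
    | insert a S ha ih => rw [Finset.sum_insert ha, Finset.sum_insert ha, al_add, ih]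
  conv_lhs => rw [hz]
  rw [hsum]
  refine Finset.sum_congr rfl fun j _ => ?_
  rw [al_smul]
  congr 1
  unfold al dbar
  congr 3
  congr 1
  ext i
  simp

theorem al_le (A : Cn n →L[ℝ] Cn m) (z : Cn n) : ‖al A z‖ ≤ ‖z‖ * dbarNorm A := by
  rw [al_sum]
  have h1 : ‖∑ j, (starRingEnd ℂ (z j)) • dbar A j‖ ≤ ∑ j, ‖z j‖ * ‖dbar A j‖ := by
    refine (norm_sum_le _ _).trans (Finset.sum_le_sum fun j _ => ?_)
    rw [norm_smul, RCLike.norm_conj]
  have h2 := Real.sum_mul_le_sqrt_mul_sqrt Finset.univ (fun j => ‖z j‖) (fun j => ‖dbar A j‖)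
  refine h1.trans (h2.trans (le_of_eq ?_))
  rw [EuclideanSpace.norm_eq]
  rfl

theorem dbarNorm_continuous : Continuous (dbarNorm : (Cn n →L[ℝ] Cn m) → ℝ) := by
  unfold dbarNorm dbar
  fun_prop

/-- a quantitative form of the vanishing to infinite order in `L¹`. -/
def Flat (u : Cn n → Cn m) (c : Cn n) : Prop :=
  ∀ K : ℕ, ∃ r₀ : ℝ, 0 < r₀ ∧ ∀ r, 0 < r → r ≤ r₀ →
    ∫⁻ y in closedBall c r, ‖u y‖ₑ ≤ ENNReal.ofReal (r ^ K)

theorem young (x a : ℝ≥0∞) (t : ℝ) (ht : 1 ≤ t) (hx : x ≠ ⊤) :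
    x ≤ a + a ^ (-(t - 1)) * x ^ t := by
  rcases le_or_gt x a with h | h
  · exact h.trans le_self_add
  · have hx0 : x ≠ 0 := (lt_of_le_of_lt zero_le h).ne'
    refine le_trans ?_ le_add_self
    have h1 : x ^ (-(t - 1)) ≤ a ^ (-(t - 1)) := by
      rw [ENNReal.rpow_neg, ENNReal.rpow_neg]
      exact ENNReal.inv_le_inv.2 (ENNReal.rpow_le_rpow h.le (by linarith))
    calc x = x ^ (-(t - 1)) * x ^ t := by
          rw [← ENNReal.rpow_add _ _ hx0 hx]
          have : -(t - 1) + t = 1 := by ring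
          rw [this, ENNReal.rpow_one]
      _ ≤ _ := mul_le_mul' h1 le_rfl

theorem flat_of_vanishes (u : Cn n → Cn m) (t : ℝ) (ht : 1 ≤ t) (c : Cn n)
    (h : VanishesInfOrder u t c) : Flat u c := by
  intro K
  set M : ℕ := ⌈((K : ℝ) + 1) * (t - 1)⌉₊ with hM
  set N : ℕ := M + K + 1 with hN
  set C : ℝ := (volume (closedBall c 1)).toReal with hC
  have hC0 : 0 ≤ C := ENNReal.toReal_nonneg
  have h1 : ∀ᶠ r in 𝓝[>] (0 : ℝ),
      ENNReal.ofReal ((r ^ N)⁻¹) * ∫⁻ x in ball c r, ‖u x‖ₑ ^ t < 1 :=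
    (h N).eventually (gt_mem_nhds zero_lt_one)
  rw [eventually_nhdsWithin_iff, Metric.eventually_nhds_iff] at h1
  obtain ⟨d, hd, hd2⟩ := h1
  refine ⟨min (min (1 / 2) (d / 4)) (1 / (C + 2 ^ N)), by positivity, ?_⟩
  intro r hr hr0
  have hr1 : r ≤ 1 / 2 := hr0.trans ((min_le_left _ _).trans (min_le_left _ _))
  have hr2 : r ≤ d / 4 := hr0.trans ((min_le_left _ _).trans (min_le_right _ _))
  have hr3 : r ≤ 1 / (C + 2 ^ N) := hr0.trans (min_le_right _ _)
  have hra : ENNReal.ofReal r ≠ 0 := by rw [Ne, ENNReal.ofReal_eq_zero, not_le]; exact hr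
  have hlt := hd2 (y := 2 * r) (by
    rw [dist_zero_right, Real.norm_of_nonneg (by positivity)]
    linarith) (by rw [mem_Ioi]; positivity)
  have h2 : ∫⁻ x in ball c (2 * r), ‖u x‖ₑ ^ t ≤ ENNReal.ofReal ((2 * r) ^ N) := by
    have h3 : (0 : ℝ) < (2 * r) ^ N := by positivity
    rw [ENNReal.ofReal_inv_of_pos h3] at hlt
    have h4 : ENNReal.ofReal ((2 * r) ^ N) ≠ 0 := by
      rw [Ne, ENNReal.ofReal_eq_zero, not_le]; exact h3
    calc ∫⁻ x in ball c (2 * r), ‖u x‖ₑ ^ t
        = ENNReal.ofReal ((2 * r) ^ N) * ((ENNReal.ofReal ((2 * r) ^ N))⁻¹ *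
          ∫⁻ x in ball c (2 * r), ‖u x‖ₑ ^ t) := by
          rw [← mul_assoc, ENNReal.mul_inv_cancel h4 ENNReal.ofReal_ne_top, one_mul]
      _ ≤ ENNReal.ofReal ((2 * r) ^ N) * 1 := mul_le_mul' le_rfl hlt.le
      _ = _ := mul_one _
  set a : ℝ≥0∞ := ENNReal.ofReal r ^ (K + 1) with ha
  have ha0 : a ≠ 0 := pow_ne_zero _ hra
  have hat : a ≠ ⊤ := ENNReal.pow_ne_top ENNReal.ofReal_ne_top
  have h5 : a ^ (-(t - 1)) ≤ (ENNReal.ofReal r ^ M)⁻¹ := by
    have hr1' : ENNReal.ofReal r ≤ 1 := by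
      rw [← ENNReal.ofReal_one]
      exact ENNReal.ofReal_le_ofReal (by linarith)
    rw [ha, ← ENNReal.rpow_natCast, ← ENNReal.rpow_mul, ← ENNReal.rpow_natCast,
      ← ENNReal.rpow_neg]
    refine ENNReal.rpow_le_rpow_of_exponent_ge hr1' ?_
    have h6 : ((K : ℝ) + 1) * (t - 1) ≤ M := Nat.le_ceil _
    push_cast
    nlinarith
  calc ∫⁻ y in closedBall c r, ‖u y‖ₑ
      ≤ ∫⁻ y in closedBall c r, (a + a ^ (-(t - 1)) * ‖u y‖ₑ ^ t) :=
        lintegral_mono fun y => young _ _ t ht enorm_ne_top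
    _ = a * volume (closedBall c r) + a ^ (-(t - 1)) * ∫⁻ y in closedBall c r, ‖u y‖ₑ ^ t := by
        rw [lintegral_add_left measurable_const, setLIntegral_const, lintegral_const_mul' _ _
          (ENNReal.rpow_ne_top_of_ne_zero ha0 hat)]
    _ ≤ a * ENNReal.ofReal C + (ENNReal.ofReal r ^ M)⁻¹ * ENNReal.ofReal ((2 * r) ^ N) := by
        refine add_le_add (mul_le_mul' le_rfl ?_) (mul_le_mul' h5 ?_)
        · rw [hC, ENNReal.ofReal_toReal measure_closedBall_lt_top.ne]
          exact measure_mono (closedBall_subset_closedBall (by linarith))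
        · refine le_trans (lintegral_mono_set ?_) h2
          exact closedBall_subset_ball (by linarith)
    _ = ENNReal.ofReal (r ^ (K + 1) * C + 2 ^ N * r ^ (K + 1)) := by
        rw [ENNReal.ofReal_add (by positivity) (by positivity), ENNReal.ofReal_mul (by positivity),
          ha, ENNReal.ofReal_pow hr.le]
        congr 1
        rw [mul_pow, ENNReal.ofReal_mul (by positivity), ENNReal.ofReal_mul (by positivity),
          ENNReal.ofReal_pow hr.le, ENNReal.ofReal_pow hr.le, hN]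
        have h7 : ENNReal.ofReal r ^ (M + K + 1) = ENNReal.ofReal r ^ M * ENNReal.ofReal r ^ (K + 1) := by
          rw [← pow_add, add_assoc]
        rw [h7]
        calc (ENNReal.ofReal r ^ M)⁻¹ * (ENNReal.ofReal (2 ^ (M + K + 1)) *
              (ENNReal.ofReal r ^ M * ENNReal.ofReal r ^ (K + 1)))
            = ((ENNReal.ofReal r ^ M)⁻¹ * ENNReal.ofReal r ^ M) *
              (ENNReal.ofReal (2 ^ (M + K + 1)) * ENNReal.ofReal r ^ (K + 1)) := by ring
          _ = _ := by
            rw [ENNReal.inv_mul_cancel (pow_ne_zero _ hra)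
              (ENNReal.pow_ne_top ENNReal.ofReal_ne_top), one_mul]
    _ ≤ _ := by
        refine ENNReal.ofReal_le_ofReal ?_
        rw [le_div_iff₀ (by positivity)] at hr3
        have h8 : 0 < r ^ K := by positivity
        calc r ^ (K + 1) * C + 2 ^ N * r ^ (K + 1) = r ^ K * (r * (C + 2 ^ N)) := by
              rw [pow_succ]; ring
          _ ≤ r ^ K * 1 := mul_le_mul_of_nonneg_left hr3 h8.le
          _ = _ := mul_one _

theorem flat_of_zero (u : Cn n → Cn m) (c : Cn n) (ρ : ℝ) (hρ : 0 < ρ)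
    (h : ∀ᵐ y, y ∈ ball c ρ → u y = 0) : Flat u c := by
  intro K
  refine ⟨ρ / 2, by positivity, fun r hr hr2 => ?_⟩
  have h1 : ∫⁻ y in closedBall c r, ‖u y‖ₑ = 0 := by
    have h2 : ∫⁻ y in closedBall c r, ‖u y‖ₑ = ∫⁻ y in closedBall c r, (0 : ℝ≥0∞) := by
      refine lintegral_congr_ae ?_
      rw [EventuallyEq, ae_restrict_iff' measurableSet_closedBall]
      filter_upwards [h] with y hy hyr
      rw [hy (closedBall_subset_ball (by linarith) hyr), enorm_zero]
    rw [h2, lintegral_zero]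
  rw [h1]
  exact zero_le

theorem int_of_ae {F : Type*} [NormedAddCommGroup F] (f g : Cn n → F) (s : Set (Cn n))
    (hs : MeasurableSet s) (h : Integrable f (volume.restrict s))
    (h1 : ∀ᵐ x, x ∈ s → g x = f x) (h2 : ∀ x, x ∉ s → g x = 0) : Integrable g := by
  have h3 := IntegrableOn.integrable_indicator (s := s) h hs
  refine h3.congr ?_
  filter_upwards [h1] with x hx
  by_cases hxb : x ∈ s
  · rw [indicator_of_mem hxb, hx hxb]
  · rw [indicator_of_notMem hxb, h2 x hxb]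

/-- the local theorem for maps defined on an open set -/
theorem local_step (hn : 2 ≤ n) (Ω : Set (Cn n)) (s : ℝ) (hs : 1 ≤ s)
    (u : Cn n → Cn m) (Du : Cn n → Cn n →L[ℝ] Cn m) (V : Cn n → ℝ)
    (hu : LocLp Ω s u) (hDu : LocLp Ω s Du) (hw : IsWeakGrad Ω u Du) (hV : LocLp Ω (2 * n) V)
    (hineq : ∀ᵐ x, x ∈ Ω → dbarNorm (Du x) ≤ V x * ‖u x‖) (c : Cn n) (R : ℝ) (hR : 0 < R)
    (hball : closedBall c R ⊆ Ω) (hflat : Flat u c) :
    ∀ᵐ y, y ∈ ball c (R / 8) → u y = 0 := by
  have hsub : ball c R ⊆ Ω := ball_subset_closedBall.trans hball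
  have hle : (volume.restrict (ball c R) : Measure (Cn n)) ≤ volume.restrict (closedBall c R) :=
    Measure.restrict_mono_set _ ball_subset_closedBall
  have hs' : (1 : ℝ≥0∞) ≤ ENNReal.ofReal s := by
    rw [← ENNReal.ofReal_one]
    exact ENNReal.ofReal_le_ofReal hs
  have hfin : IsFiniteMeasure (volume.restrict (ball c R) : Measure (Cn n)) :=
    ⟨by rw [Measure.restrict_apply_univ]; exact measure_ball_lt_top⟩
  have hu1 : MemLp u (ENNReal.ofReal s) (volume.restrict (ball c R)) :=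
    (hu _ hball (isCompact_closedBall c R)).mono_measure hle
  have hD1 : MemLp Du (ENNReal.ofReal s) (volume.restrict (ball c R)) :=
    (hDu _ hball (isCompact_closedBall c R)).mono_measure hle
  have hV1 : MemLp V (ENNReal.ofReal (2 * n)) (volume.restrict (ball c R)) :=
    (hV _ hball (isCompact_closedBall c R)).mono_measure hle
  have hui : Integrable u (volume.restrict (ball c R)) := memLp_one_iff_integrable.1
    (hu1.mono_exponent hs')
  have hDi : Integrable Du (volume.restrict (ball c R)) := memLp_one_iff_integrable.1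
    (hD1.mono_exponent hs')
  set u₁ := hui.1.mk u with hu₁
  set D₁ := hDi.1.mk Du with hD₁
  set V₁ := hV1.1.mk V with hV₁
  have hum : StronglyMeasurable u₁ := hui.1.stronglyMeasurable_mk
  have hDm : StronglyMeasurable D₁ := hDi.1.stronglyMeasurable_mk
  have hVm : StronglyMeasurable V₁ := hV1.1.stronglyMeasurable_mk
  have hue : ∀ᵐ x, x ∈ ball c R → u x = u₁ x :=
    (ae_restrict_iff' measurableSet_ball).1 hui.1.ae_eq_mk
  have hDe : ∀ᵐ x, x ∈ ball c R → Du x = D₁ x :=
    (ae_restrict_iff' measurableSet_ball).1 hDi.1.ae_eq_mk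
  have hVe : ∀ᵐ x, x ∈ ball c R → V x = V₁ x :=
    (ae_restrict_iff' measurableSet_ball).1 hV1.1.ae_eq_mk
  set E : Set (Cn n) := ball c R ∩ {x | dbarNorm (D₁ x) ≤ V₁ x * ‖u₁ x‖} with hE
  have hEm : MeasurableSet E := by
    refine measurableSet_ball.inter (measurableSet_le ?_ ?_)
    · exact (dbarNorm_continuous.comp_stronglyMeasurable hDm).measurable
    · exact (hVm.mul hum.norm).measurable
  have hEae : ∀ᵐ x, x ∈ ball c R → x ∈ E := by
    filter_upwards [hue, hDe, hVe, hineq] with x h1 h2 h3 h4 hx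
    refine ⟨hx, ?_⟩
    have h5 := h4 (hsub hx)
    rw [h1 hx, h2 hx, h3 hx] at h5
    exact h5
  set g : Cn n → Cn m := E.indicator u₁ with hg
  set G : Cn n → Cn n →L[ℝ] Cn m := E.indicator D₁ with hG
  set W : Cn n → ℝ≥0∞ := E.indicator (fun x => ‖V₁ x‖ₑ) with hW
  have hgm : StronglyMeasurable g := hum.indicator hEm
  have hGm : StronglyMeasurable G := hDm.indicator hEm
  have hge : ∀ᵐ x, x ∈ ball c R → g x = u x := by
    filter_upwards [hue, hEae] with x h1 h2 hx
    rw [hg, indicator_of_mem (h2 hx), h1 hx]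
  have hGe : ∀ᵐ x, x ∈ ball c R → G x = Du x := by
    filter_upwards [hDe, hEae] with x h1 h2 hx
    rw [hG, indicator_of_mem (h2 hx), h1 hx]
  have hgi : Integrable g := int_of_ae u g _ measurableSet_ball hui hge
    (fun x hx => indicator_of_notMem (fun h => hx h.1) _)
  have hGi : Integrable G := int_of_ae Du G _ measurableSet_ball hDi hGe
    (fun x hx => indicator_of_notMem (fun h => hx h.1) _)
  have hweak : Pool.Agent.Helper930.WD.WeakDerivOn (ball c R) g G := by
    refine ⟨hgi.locallyIntegrable.locallyIntegrableOn _,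
      hGi.locallyIntegrable.locallyIntegrableOn _, ?_⟩
    intro φ hφ hφc hφs v
    have h1 := hw φ hφ hφc (hφs.trans hsub) v
    have e1 : ∫ x, (fderiv ℝ φ x v) • g x = ∫ x, (fderiv ℝ φ x v) • u x := by
      refine integral_congr_ae ?_
      filter_upwards [hge] with x hx
      by_cases hxb : x ∈ ball c R
      · rw [hx hxb]
      · have h2 : fderiv ℝ φ x = 0 := by
          by_contra hne
          exact hxb (hφs (support_fderiv_subset ℝ hne))
        rw [h2]
        simp
    have e2 : ∫ x, φ x • G x v = ∫ x, φ x • Du x v := by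
      refine integral_congr_ae ?_
      filter_upwards [hGe] with x hx
      by_cases hxb : x ∈ ball c R
      · rw [hx hxb]
      · have h2 : φ x = 0 := by
          by_contra hne
          exact hxb (hφs (subset_tsupport _ hne))
        rw [h2]
        simp
    rw [e1, e2]
    exact h1
  have hWm : Measurable W := hVm.enorm.indicator hEm
  have hn0 : (0 : ℝ) < 2 * n := by
    have : (2 : ℝ) ≤ n := by exact_mod_cast hn
    linarith
  have hWi : ∫⁻ y, W y ^ (2 * n : ℝ) ≠ ⊤ := by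
    have h1 : ∫⁻ y, W y ^ (2 * n : ℝ) ≤ ∫⁻ y in ball c R, ‖V y‖ₑ ^ (2 * n : ℝ) := by
      rw [← lintegral_indicator measurableSet_ball]
      refine lintegral_mono_ae ?_
      filter_upwards [hVe] with y hy
      by_cases hyE : y ∈ E
      · rw [hW, indicator_of_mem hyE, indicator_of_mem hyE.1, hy hyE.1]
      · rw [hW, indicator_of_notMem hyE, ENNReal.zero_rpow_of_pos hn0]
        exact zero_le
    refine ne_top_of_le_ne_top ?_ h1
    have h2 := hV1.2
    rw [eLpNorm_eq_lintegral_rpow_enorm_toReal (by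
      rw [Ne, ENNReal.ofReal_eq_zero, not_le]; exact hn0) ENNReal.ofReal_ne_top,
      ENNReal.toReal_ofReal hn0.le] at h2
    intro h3
    rw [h3, ENNReal.top_rpow_of_pos (by positivity)] at h2
    exact lt_irrefl _ h2
  have hal : ∀ x z, ‖al (G x) z‖ₑ ≤ ‖z‖ₑ * W x * ‖g x‖ₑ := by
    intro x z
    by_cases hxE : x ∈ E
    · rw [hG, hW, hg, indicator_of_mem hxE, indicator_of_mem hxE, indicator_of_mem hxE]
      have h1 := al_le (D₁ x) z
      have h2 : dbarNorm (D₁ x) ≤ V₁ x * ‖u₁ x‖ := hxE.2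
      have h3 : ‖al (D₁ x) z‖ ≤ ‖z‖ * |V₁ x| * ‖u₁ x‖ := by
        calc ‖al (D₁ x) z‖ ≤ ‖z‖ * dbarNorm (D₁ x) := h1
          _ ≤ ‖z‖ * (V₁ x * ‖u₁ x‖) := mul_le_mul_of_nonneg_left h2 (norm_nonneg _)
          _ ≤ ‖z‖ * (|V₁ x| * ‖u₁ x‖) := mul_le_mul_of_nonneg_left
              (mul_le_mul_of_nonneg_right (le_abs_self _) (norm_nonneg _)) (norm_nonneg _)
          _ = _ := by ring
      rw [← ofReal_norm, ← ofReal_norm, ← ofReal_norm (V₁ x), ← ofReal_norm (u₁ x),
        ← ENNReal.ofReal_mul (norm_nonneg _), ← ENNReal.ofReal_mul (by positivity),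
        Real.norm_eq_abs]
      exact ENNReal.ofReal_le_ofReal h3
    · rw [hG, indicator_of_notMem hxE]
      have : al (0 : Cn n →L[ℝ] Cn m) z = 0 := by
        unfold al
        simp
      rw [this, enorm_zero]
      exact zero_le
  have hvan : ∀ K : ℕ, ∃ r₀ : ℝ, 0 < r₀ ∧ ∀ r, 0 < r → r ≤ r₀ →
      ∫⁻ y in closedBall c r, ‖g y‖ₑ ≤ ENNReal.ofReal (r ^ K) := by
    intro K
    obtain ⟨r₀, hr₀, h1⟩ := hflat K
    refine ⟨min r₀ (R / 2), lt_min hr₀ (by positivity), fun r hr hr2 => ?_⟩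
    refine le_trans (le_of_eq ?_) (h1 r hr (hr2.trans (min_le_left _ _)))
    refine lintegral_congr_ae ?_
    rw [EventuallyEq, ae_restrict_iff' measurableSet_closedBall]
    filter_upwards [hge] with y hy hyr
    have hyb : y ∈ ball c R := by
      rw [mem_closedBall] at hyr
      rw [mem_ball]
      have := hr2.trans (min_le_right _ _)
      linarith
    rw [hy hyb]
  have hfinal := Pool.Agent.R234.UC.local_zero hn c R hR g G hgm hGm hgi hGi hweak W hWm hWi hal
    hvan
  filter_upwards [hfinal, hge] with y h1 h2 hy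
  have hyR : y ∈ ball c R := ball_subset_ball (by linarith) hy
  rw [← h2 hyR]
  exact h1 hy

theorem main (hn : 2 ≤ n) (s t : ℝ) (hs : 1 ≤ s) (ht : 1 ≤ t) (Ω : Set (Cn n)) (hΩ : IsOpen Ω)
    (hc : IsConnected Ω) : StrongUniqueContinuation n m s t Ω := by
  intro u Du V hu hDu hw hV hineq ⟨z₀, hz₀, hvan⟩
  set Z : Set (Cn n) := {x | ∃ r : ℝ, 0 < r ∧ ∀ᵐ y, y ∈ ball x r → u y = 0} with hZ
  have hstep : ∀ c ∈ Ω, Flat u c → ∀ R : ℝ, 0 < R → closedBall c R ⊆ Ω →
      ∀ᵐ y, y ∈ ball c (R / 8) → u y = 0 := fun c _ hf R hR hb =>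
    local_step hn Ω s hs u Du V hu hDu hw hV hineq c R hR hb hf
  have hZo : IsOpen Z := by
    rw [Metric.isOpen_iff]
    rintro x ⟨r, hr, hx⟩
    refine ⟨r / 2, by positivity, fun y hy => ⟨r / 2, by positivity, ?_⟩⟩
    filter_upwards [hx] with w hw1 hw2
    refine hw1 ?_
    rw [mem_ball] at hy hw2 ⊢
    linarith [dist_triangle w y x]
  have hne : (Ω ∩ Z).Nonempty := by
    refine ⟨z₀, hz₀, ?_⟩
    obtain ⟨R, hR, hb⟩ := Metric.nhds_basis_closedBall.mem_iff.1 (hΩ.mem_nhds hz₀)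
    exact ⟨R / 8, by positivity, hstep z₀ hz₀ (flat_of_vanishes u t ht z₀ hvan) R hR hb⟩
  have hcl : closure Z ∩ Ω ⊆ Z := by
    rintro x ⟨hx1, hx2⟩
    obtain ⟨R, hR, hb⟩ := Metric.isOpen_iff.1 hΩ x hx2
    rw [Metric.mem_closure_iff] at hx1
    obtain ⟨y, hyZ, hy⟩ := hx1 (R / 32) (by positivity)
    obtain ⟨r, hr, hy2⟩ := hyZ
    have hb2 : closedBall y (R / 2) ⊆ Ω := by
      intro w hw1
      refine hb ?_
      rw [mem_closedBall] at hw1
      rw [mem_ball]
      linarith [dist_triangle w y x, dist_comm x y]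
    have h1 := hstep y (hb2 (mem_closedBall_self (by positivity)))
      (flat_of_zero u y r hr hy2) (R / 2) (by positivity) hb2
    refine ⟨R / 32, by positivity, ?_⟩
    filter_upwards [h1] with w hw1 hw2
    refine hw1 ?_
    rw [mem_ball] at hw2 ⊢
    linarith [dist_triangle w x y]
  have hsubset := hc.isPreconnected.subset_of_closure_inter_subset hZo hne hcl
  -- conclusion
  have hnull : volume {x | ¬ (x ∈ Ω → u x = 0)} = 0 := by
    refine measure_null_of_locally_null _ fun x hx => ?_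
    have hxΩ : x ∈ Ω := by
      by_contra h
      exact hx (fun h' => absurd h' h)
    obtain ⟨r, hr, hx2⟩ := hsubset hxΩ
    refine ⟨{y | ¬ (y ∈ Ω → u y = 0)} ∩ ball x r, ?_, ?_⟩
    · exact inter_mem_nhdsWithin _ (ball_mem_nhds x hr)
    · rw [ae_iff] at hx2
      refine measure_mono_null ?_ hx2
      rintro y ⟨hy1, hy2⟩ hy3
      exact hy1 (fun _ => hy3 hy2)
  exact hnull

/-- **Q1 holds.** With `s = p = 4n/(2n+1)` and `t = p' = 4n/(2n-1)` this is Q1; it holds for all
finite exponents `s, t ≥ 1` (in particular under `W^{1,1}_loc` and infinite order vanishing in the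
`L¹` sense only). -/
theorem result (n m : ℕ) (hn : 2 ≤ n) (s t : ℝ) (hs : 1 ≤ s) (ht : 1 ≤ t)
    (Ω : Set (Cn n)) (hΩ : IsOpen Ω) (hc : IsConnected Ω) :
    StrongUniqueContinuation n m s t Ω :=
  main hn s t hs ht Ω hΩ hc

/-- the exponents of the question are admissible. -/
theorem exponents_ge_one (n : ℕ) (hn : 2 ≤ n) :
    (1 : ℝ) ≤ 4 * n / (2 * n + 1) ∧ (1 : ℝ) ≤ 4 * n / (2 * n - 1) := by
  have h2 : (2 : ℝ) ≤ n := by exact_mod_cast hn
  constructor
  · rw [le_div_iff₀ (by linarith)]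
    linarith
  · rw [le_div_iff₀ (by linarith)]
    linarith

end Pool.Agent.Results.MP_b3ccf3_an.StrongUC
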